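import Pool.Agent.H218.ZW.Predict
import Pool.Agent.TH900.XM.Meas

/-!
# Finite-state machines cannot predict the digits of `ζ(11), …, ζ(27)`

For every odd `j` from `11` to `27` a machine with finitely many states reads the digits of `ζ(j)` in a base
`b_j` of its own one after the other and announces before each digit a guess which depends on its state only. The
nine machines together are wrong at least `(log t - log (∑ S_j log b_j)) / log 14652 - C` times in the digits up to
the scale `t`, that is, if the machine number `j` has `S_j` states and reads at least `t / log b_j` digits. The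
constant `C` does not depend on the machines and the bases.
-/

set_option autoImplicit false

namespace Pool.Agent.Results.MP_4f096c_nt.FiniteStatePrediction

open Pool.Agent.H218.ZW

/-- the odd numbers from `11` to `27` -/
def W : Finset ℕ := {11, 13, 15, 17, 19, 21, 23, 25, 27}

/-- `ζ(j)` -/
noncomputable def zeta (j : ℕ) : ℝ := ∑' n : ℕ, 1 / ((n : ℝ) + 1) ^ j

lemma meas : ∃ c : ℝ, 0 < c ∧ Meas W zeta 1628 c := by
  obtain ⟨c, hc, h⟩ := Pool.Agent.TH900.XM.measure
  refine ⟨c, hc, fun a q hq => ?_⟩
  obtain ⟨j, hj, h1⟩ := h a q hq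
  exact ⟨j, hj, h1⟩

/-- **Finite-state prediction of the digits of `ζ(11), …, ζ(27)`.** -/
theorem result : ∃ C : ℝ, ∀ (b : ℕ → ℕ) (Q : ℕ → Type) [∀ j, Fintype (Q j)] (M : ∀ j, Machine (Q j))
    (N : ℕ → ℕ) (t : ℝ), (∀ j, 2 ≤ b j) → 0 < t → (∀ j ∈ W, t ≤ N j * Real.log (b j)) →
      (Real.log t - Real.log (∑ j ∈ W, (Fintype.card (Q j) : ℝ) * Real.log (b j))) /
        Real.log 14652 - C ≤ ((∑ j ∈ W, (M j).errors (b j) (zeta j) (N j) : ℕ) : ℝ) := by
  obtain ⟨c, hc, h⟩ := meas
  have h1 := predict W ⟨11, by decide⟩ zeta 1628 c hc h 14652 (by decide) (by norm_num)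
  push_cast at h1 ⊢
  exact h1

end Pool.Agent.Results.MP_4f096c_nt.FiniteStatePrediction
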