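import Pool.Agent.H241.OS.Heights
import Pool.Agent.TH900.XM.Meas

/-!
# Near relations of `ζ(11), ζ(13), …, ζ(27)`, each relation with a height of its own

At most `r_j` independent near relations, modulo the integers, hold between `ζ(j)` and `r_j` arbitrary real numbers, for
one of the odd `j` with `11 ≤ j ≤ 27`: every `j` has its own `r_j`, its own arbitrary numbers and its own relations, and
every relation has its own height. Rational numbers among the zeta values can be left out: for instance, if `ζ(11)` is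
rational, the statement holds for the other eight numbers alone.

The proof applies the simultaneous measure of the starting file `MeasureZeta11To27` to the determinants which one gets by
eliminating the arbitrary numbers (Cramer's rule) for every `j` separately (`Pool.Agent.H241.OS`).
-/

set_option autoImplicit false

namespace Pool.Agent.Results.MP_4f096c_nt.OwnHeightRelations

/-- the odd numbers from `11` to `27` -/
def T : Finset ℕ := {11, 13, 15, 17, 19, 21, 23, 25, 27}

/-- `ζ(j)` -/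
noncomputable def zeta (j : ℕ) : ℝ := ∑' n : ℕ, 1 / ((n : ℝ) + 1) ^ j

/-- **The product inequality.** Let `S` be any set of `j` for which `ζ(j)` is rational (it may be empty, or `{11}`), and
let numbers `r_j` be given. (1) There is `c > 0` such that the following holds for all heights `h_{j,k} ≥ 1`, `k ≤ r_j`,
all real numbers `t_{j,i}`, `i < r_j`, and all integer vectors `v_{j,k} = (q_{j,k}; e_{j,k,1}, …)` with entries of size at
most `h_{j,k}`, linearly independent for every `j`: for one of the `j` in `T \ S` the sum over `k` of the distances of the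
numbers `q_{j,k} ζ(j) + ∑ e_{j,k,i} t_{j,i}` to the integers, divided by `h_{j,k}`, is at least
`c ∏ h_{i,k} ^ (-1628)`, the product over all `i` in `T \ S` and `k ≤ r_i`. (2) The same for the values at `ζ(j)` of
`r_j + 1` linearly independent integer polynomials of degree at most `r_j + 1` without constant term. -/
theorem result : ∀ S : Finset ℕ, (∀ j ∈ S, ¬ Irrational (zeta j)) → ∀ r : ℕ → ℕ,
    (∃ c : ℝ, 0 < c ∧ ∀ h : (j : ℕ) → Fin (r j + 1) → ℝ, (∀ j ∈ T \ S, ∀ k, 1 ≤ h j k) →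
      ∀ (t : (j : ℕ) → Fin (r j) → ℝ) (q : (j : ℕ) → Fin (r j + 1) → ℤ)
        (e : (j : ℕ) → Fin (r j + 1) → Fin (r j) → ℤ),
        (∀ j ∈ T \ S, LinearIndependent ℤ (fun k => (q j k, e j k))) →
        (∀ j ∈ T \ S, ∀ k, |(q j k : ℝ)| ≤ h j k) → (∀ j ∈ T \ S, ∀ k i, |(e j k i : ℝ)| ≤ h j k) →
        ∃ j ∈ T \ S, ∀ p : Fin (r j + 1) → ℤ, c / (∏ i ∈ T \ S, ∏ k, h i k) ^ 1628 ≤
          ∑ k, |(q j k : ℝ) * zeta j + ∑ i, (e j k i : ℝ) * t j i - p k| / h j k) ∧
    (∃ c : ℝ, 0 < c ∧ ∀ h : (j : ℕ) → Fin (r j + 1) → ℝ, (∀ j ∈ T \ S, ∀ k, 1 ≤ h j k) →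
      ∀ P : (j : ℕ) → Fin (r j + 1) → Polynomial ℤ, (∀ j ∈ T \ S, LinearIndependent ℤ (P j)) →
        (∀ j ∈ T \ S, ∀ k, (P j k).natDegree ≤ r j + 1) → (∀ j ∈ T \ S, ∀ k, (P j k).coeff 0 = 0) →
        (∀ j ∈ T \ S, ∀ k i, |((P j k).coeff i : ℝ)| ≤ h j k) →
        ∃ j ∈ T \ S, ∀ p : Fin (r j + 1) → ℤ, c / (∏ i ∈ T \ S, ∏ k, h i k) ^ 1628 ≤
          ∑ k, |Polynomial.aeval (zeta j) (P j k) - (p k : ℝ)| / h j k) := by
  intro S hS r
  obtain ⟨c, hc, hm⟩ := Pool.Agent.TH900.XM.measure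
  have hm' : ∀ (a : ℕ → ℤ) (q : ℕ), 0 < q → ∃ j ∈ T, c / (q : ℝ) ^ 1628 ≤ |zeta j - (a j : ℝ) / q| :=
    fun a q hq => hm a q hq
  obtain ⟨c₁, hc₁, h1⟩ := Pool.Agent.H241.OS.restrictProd T S zeta 1628 c hc
    (Pool.Agent.H241.OS.toProd T zeta 1628 c hm') hS
  exact ⟨Pool.Agent.H241.OS.heights (T \ S) zeta 1628 (by norm_num) c₁ hc₁ h1 r,
    Pool.Agent.H241.OS.heightsPoly (T \ S) zeta 1628 (by norm_num) c₁ hc₁ h1 r⟩

end Pool.Agent.Results.MP_4f096c_nt.OwnHeightRelations
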